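import Mathlib
import Pool.Agent.Helper66.SC.Spec

/-!
# Common lemmas for the modules SC-4 and SC-5
-/

set_option autoImplicit false

namespace Pool.Agent.Helper10.SC

open MeasureTheory Set Pool.Agent.Helper66.SC

/-- the substitution `u = c * exp (a * t)` -/
theorem lint_exp_subst (c a : ℝ) (hc : 0 < c) (ha : 0 < a) (F : ℝ → ENNReal) :
    ∫⁻ t : ℝ, ENNReal.ofReal (c * (a * Real.exp (a * t))) * F (c * Real.exp (a * t)) =
      ∫⁻ u in Ioi (0 : ℝ), F u := by
  have him : (fun t : ℝ => c * Real.exp (a * t)) '' univ = Ioi 0 := by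
    ext u
    constructor
    · rintro ⟨t, -, rfl⟩
      exact mul_pos hc (Real.exp_pos _)
    · intro hu
      refine ⟨Real.log (u / c) / a, trivial, ?_⟩
      have h1 : 0 < u / c := div_pos hu hc
      have h2 : a * (Real.log (u / c) / a) = Real.log (u / c) := by field_simp
      show c * Real.exp (a * (Real.log (u / c) / a)) = u
      rw [h2, Real.exp_log h1]
      field_simp
  have hd : ∀ t ∈ (univ : Set ℝ), HasDerivWithinAt (fun t : ℝ => c * Real.exp (a * t))
      (c * (a * Real.exp (a * t))) univ t := by
    intro t _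
    have h := ((((hasDerivAt_id t).const_mul a).exp).const_mul c).hasDerivWithinAt (s := univ)
    have he : c * (Real.exp (a * id t) * (a * 1)) = c * (a * Real.exp (a * t)) := by
      simp only [id]; ring
    rw [he] at h
    exact h
  have hi : InjOn (fun t : ℝ => c * Real.exp (a * t)) univ := by
    intro x _ y _ hxy
    have h1 : Real.exp (a * x) = Real.exp (a * y) := mul_left_cancel₀ hc.ne' hxy
    exact mul_left_cancel₀ ha.ne' (Real.exp_injective h1)
  have h := lintegral_image_eq_lintegral_abs_deriv_mul MeasurableSet.univ hd hi F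
  rw [him, Measure.restrict_univ] at h
  rw [h]
  refine lintegral_congr fun t => ?_
  rw [abs_of_pos]
  positivity

/-- the Gamma integral -/
theorem lint_gamma (n : ℕ) :
    ∫⁻ u in Ioi (0 : ℝ), ENNReal.ofReal (Real.exp (-u) * u ^ n) = ENNReal.ofReal n.factorial := by
  have h1 : ∀ u ∈ Ioi (0 : ℝ), Real.exp (-u) * u ^ (((n : ℝ) + 1) - 1) =
      Real.exp (-u) * u ^ n := by
    intro u hu
    rw [add_sub_cancel_right, Real.rpow_natCast]
  have hint : IntegrableOn (fun u : ℝ => Real.exp (-u) * u ^ n) (Ioi 0) := by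
    have h := Real.GammaIntegral_convergent (s := (n : ℝ) + 1) (by positivity)
    exact (integrableOn_congr_fun h1 measurableSet_Ioi).1 h
  rw [← ofReal_integral_eq_lintegral_ofReal hint]
  · congr 1
    rw [← Real.Gamma_nat_eq_factorial, Real.Gamma_eq_integral (by positivity)]
    exact (setIntegral_congr_fun measurableSet_Ioi h1).symm
  · filter_upwards [self_mem_ae_restrict measurableSet_Ioi] with u hu
    have : (0 : ℝ) < u := hu
    simp only [Pi.zero_apply]
    positivity

/-- Fubini for products of nonnegative functions of the coordinates -/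
theorem lint_prod {n : ℕ} (f : Fin n → ℝ → ENNReal) (hf : ∀ i, Measurable (f i)) :
    ∫⁻ x : Fin n → ℝ, ∏ i, f i (x i) = ∏ i, ∫⁻ t, f i t := by
  induction n with
  | zero =>
    simp only [Finset.univ_eq_empty, Finset.prod_empty, lintegral_const, one_mul]
    rw [volume_pi, Measure.pi_univ]
    simp
  | succ n ih =>
    have hm := (volume_preserving_piFinSuccAbove (fun _ : Fin (n + 1) => ℝ) 0).symm
    have hmeas : Measurable fun x : Fin (n + 1) → ℝ => ∏ i, f i (x i) :=
      Finset.measurable_prod _ fun i _ => (hf i).comp (measurable_pi_apply i)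
    rw [← hm.lintegral_comp hmeas]
    have he : ∀ p : ℝ × (Fin n → ℝ),
        (∏ i, f i ((MeasurableEquiv.piFinSuccAbove (fun _ : Fin (n + 1) => ℝ) 0).symm p i)) =
          f 0 p.1 * ∏ i : Fin n, f i.succ (p.2 i) := by
      intro p
      rw [Fin.prod_univ_succ]
      rfl
    simp only [he]
    have hm1 : Measurable fun p : ℝ × (Fin n → ℝ) => f 0 p.1 * ∏ i : Fin n, f i.succ (p.2 i) :=
      ((hf 0).comp measurable_fst).mul (Finset.measurable_prod _ fun i _ =>
        (hf i.succ).comp ((measurable_pi_apply i).comp measurable_snd))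
    have hm2 : Measurable fun b : Fin n → ℝ => ∏ i : Fin n, f i.succ (b i) :=
      Finset.measurable_prod _ fun i _ => (hf i.succ).comp (measurable_pi_apply i)
    rw [show (volume : Measure (ℝ × (Fin n → ℝ))) = volume.prod volume from rfl,
      lintegral_prod _ hm1.aemeasurable]
    simp only []
    have h3 : ∀ t : ℝ, ∫⁻ b : Fin n → ℝ, f 0 t * ∏ i : Fin n, f i.succ (b i) =
        f 0 t * ∏ i : Fin n, ∫⁻ t, f i.succ t := by
      intro t
      rw [lintegral_const_mul _ hm2, ih (fun i => f i.succ) fun i => hf i.succ]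
    simp only [h3]
    rw [lintegral_mul_const _ (hf 0), Fin.prod_univ_succ]

end Pool.Agent.Helper10.SC
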