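import Mathlib
import Pool.Agent.Helper66.SC.Spec
import Pool.Agent.Helper10.SC.Common

/-!
# SC-5: heights are generic almost everywhere, total mass one
-/

set_option autoImplicit false

namespace Pool.Agent.Helper10.SC

open MeasureTheory Set Pool.Agent.Helper66.SC

theorem measurable_g : Measurable g := by
  unfold g
  fun_prop

theorem lint_g : ∫⁻ t : ℝ, g t = 1 := by
  have h := lint_exp_subst 1 1 one_pos one_pos fun u => ENNReal.ofReal (Real.exp (-u) * u ^ 0)
  rw [lint_gamma 0] at h
  simp only [one_mul, pow_zero, mul_one, Nat.factorial_zero, Nat.cast_one, ENNReal.ofReal_one] at h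
  rw [← h]
  refine lintegral_congr fun t => ?_
  unfold g
  rw [ENNReal.ofReal_mul (Real.exp_pos _).le]

/-- Fubini over a general finite index type -/
theorem lint_prod_fintype {ι : Type} [Fintype ι] (f : ℝ → ENNReal) (hf : Measurable f) :
    ∫⁻ x : ι → ℝ, ∏ i, f (x i) = (∫⁻ t, f t) ^ Fintype.card ι := by
  have e := (Fintype.equivFin ι).symm
  have hm := volume_measurePreserving_piCongrLeft (fun _ : ι => ℝ) e
  have hmeas : Measurable fun x : ι → ℝ => ∏ i, f (x i) :=
    Finset.measurable_prod _ fun i _ => hf.comp (measurable_pi_apply i)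
  rw [← hm.lintegral_comp hmeas]
  have he : ∀ y : Fin (Fintype.card ι) → ℝ,
      (∏ i, f ((MeasurableEquiv.piCongrLeft (fun _ : ι => ℝ) e) y i)) = ∏ k, f (y k) := by
    intro y
    rw [← e.prod_comp]
    refine Finset.prod_congr rfl fun k _ => ?_
    rw [MeasurableEquiv.coe_piCongrLeft, Equiv.piCongrLeft_apply_apply]
  simp only [he]
  rw [lint_prod (fun _ => f) fun _ => hf]
  simp

theorem lint_G (d : ℕ) : ∫⁻ h : Vt d → ℝ, G h = 1 := by
  unfold G
  rw [lint_prod_fintype g measurable_g, lint_g, one_pow]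

theorem ev_linear {d : ℕ} (l : Fin (d + 1) → ℝ) (s : Fin (d + 1) → Vt d) (i : Fin (d + 1)) :
    ev l (s i) = (mat s).mulVec l i := rfl

theorem ae_ne {d : ℕ} (s : Fin (d + 1) → Vt d) (hs : (mat s).det ≠ 0) (v : Vt d)
    (hv : v ∉ Set.range s) :
    ∀ᵐ h : Vt d → ℝ, ∀ l, (∀ i, ev l (s i) = h (s i)) → ev l v ≠ h v := by
  classical
  let φ : (Vt d → ℝ) →ₗ[ℝ] ℝ :=
    { toFun := fun h => ev ((mat s)⁻¹.mulVec fun i => h (s i)) v - h v
      map_add' := by
        intro x y
        have h1 : (fun i => (x + y) (s i)) = (fun i => x (s i)) + fun i => y (s i) := rfl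
        show ev ((mat s)⁻¹.mulVec fun i => (x + y) (s i)) v - (x + y) v =
          (ev ((mat s)⁻¹.mulVec fun i => x (s i)) v - x v) +
            (ev ((mat s)⁻¹.mulVec fun i => y (s i)) v - y v)
        rw [h1, Matrix.mulVec_add]
        unfold ev
        simp only [Pi.add_apply, mul_add, Finset.sum_add_distrib]
        ring
      map_smul' := by
        intro c x
        have h1 : (fun i => (c • x) (s i)) = c • fun i => x (s i) := rfl
        show ev ((mat s)⁻¹.mulVec fun i => (c • x) (s i)) v - (c • x) v =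
          c * (ev ((mat s)⁻¹.mulVec fun i => x (s i)) v - x v)
        rw [h1, Matrix.mulVec_smul]
        unfold ev
        rw [mul_sub, Finset.mul_sum]
        congr 1
        refine Finset.sum_congr rfl fun j _ => ?_
        simp only [Pi.smul_apply, smul_eq_mul]
        ring }
  have hne : LinearMap.ker φ ≠ ⊤ := by
    intro htop
    have h1 : (Pi.single v (1 : ℝ) : Vt d → ℝ) ∈ LinearMap.ker φ := by rw [htop]; trivial
    rw [LinearMap.mem_ker] at h1
    have h2 : (fun i => (Pi.single v (1 : ℝ) : Vt d → ℝ) (s i)) = 0 := by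
      funext i
      rw [Pi.single_eq_of_ne]
      · rfl
      · intro h
        exact hv ⟨i, h⟩
    have h3 : φ (Pi.single v (1 : ℝ)) =
        ev ((mat s)⁻¹.mulVec fun i => (Pi.single v (1 : ℝ) : Vt d → ℝ) (s i)) v -
          (Pi.single v (1 : ℝ) : Vt d → ℝ) v := rfl
    rw [h3, h2, Matrix.mulVec_zero, Pi.single_eq_same] at h1
    simp [ev] at h1
  have h0 := Measure.addHaar_submodule (volume : Measure (Vt d → ℝ)) (LinearMap.ker φ) hne
  have h4 : ∀ᵐ h : Vt d → ℝ, h ∉ (LinearMap.ker φ : Set (Vt d → ℝ)) :=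
    measure_eq_zero_iff_ae_notMem.1 h0
  filter_upwards [h4] with h hh l hl heq
  apply hh
  have h5 : (mat s)⁻¹.mulVec (fun i => h (s i)) = l := by
    have h6 : (fun i => h (s i)) = (mat s).mulVec l := by
      funext i
      rw [← hl i, ev_linear]
    have hu : IsUnit (mat s).det := isUnit_iff_ne_zero.2 hs
    rw [h6, Matrix.mulVec_mulVec, Matrix.nonsing_inv_mul _ hu, Matrix.one_mulVec]
  show h ∈ LinearMap.ker φ
  rw [LinearMap.mem_ker]
  show ev ((mat s)⁻¹.mulVec fun i => h (s i)) v - h v = 0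
  rw [h5, heq, sub_self]

/-- SC-5 -/
theorem stGen : StGen := by
  intro d
  refine ⟨?_, lint_G d⟩
  have h : ∀ s : Fin (d + 1) → Vt d, ∀ v : Vt d, ∀ᵐ h : Vt d → ℝ, (mat s).det ≠ 0 →
      v ∉ Set.range s → ∀ l, (∀ i, ev l (s i) = h (s i)) → ev l v ≠ h v := by
    intro s v
    by_cases hs : (mat s).det ≠ 0
    · by_cases hv : v ∉ Set.range s
      · filter_upwards [ae_ne s hs v hv] with h hh _ _
        exact hh
      · filter_upwards with h _ h2
        exact absurd h2 hv
    · filter_upwards with h h1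
      exact absurd h1 hs
  have h1 : ∀ᵐ h : Vt d → ℝ, ∀ s : Fin (d + 1) → Vt d, ∀ v : Vt d, (mat s).det ≠ 0 →
      v ∉ Set.range s → ∀ l, (∀ i, ev l (s i) = h (s i)) → ev l v ≠ h v :=
    ae_all_iff.2 fun s => ae_all_iff.2 fun v => h s v
  filter_upwards [h1] with h hh s hs l hl v hv
  exact hh s v hs hv l hl

end Pool.Agent.Helper10.SC
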