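import Mathlib
import Pool.Agent.Helper66.SC.Spec
import Pool.Agent.Helper10.SC.Common

/-!
# SC-4: the integral
-/

set_option autoImplicit false

namespace Pool.Agent.Helper10.SC

open MeasureTheory Set Pool.Agent.Helper66.SC

theorem exp_ev {d : ℕ} (l : Fin (d + 1) → ℝ) (v : Vt d) :
    Real.exp (ev l v) = Real.exp (l 0) * ∏ i : Fin d, (if v i then Real.exp (l i.succ) else 1) := by
  unfold ev
  rw [Fin.sum_univ_succ, Real.exp_add]
  have h0 : row v 0 * l 0 = l 0 := by
    unfold row
    rw [Fin.cons_zero, one_mul]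
  rw [h0, Real.exp_sum]
  congr 1
  refine Finset.prod_congr rfl fun i _ => ?_
  unfold row pt
  rw [Fin.cons_succ]
  by_cases hv : v i
  · simp [hv]
  · simp [hv]

theorem Z_eq {d : ℕ} (l : Fin (d + 1) → ℝ) :
    Z l = Real.exp (l 0) * ∏ i : Fin d, (1 + Real.exp (l i.succ)) := by
  unfold Z
  simp only [exp_ev]
  rw [← Finset.mul_sum]
  congr 1
  have h := Finset.prod_univ_sum (fun _ : Fin d => (Finset.univ : Finset Bool))
    (fun (i : Fin d) (b : Bool) => if b then Real.exp (l i.succ) else 1)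
  rw [Fintype.piFinset_univ] at h
  rw [← h]
  refine Finset.prod_congr rfl fun i _ => ?_
  simp [add_comm]

theorem lint_inner (d : ℕ) (c : ℝ) (hc : 0 < c) :
    ∫⁻ t : ℝ, ENNReal.ofReal (Real.exp (-(Real.exp t * c)) * (Real.exp t * c) ^ (d + 1)) =
      ENNReal.ofReal d.factorial := by
  rw [← lint_gamma d, ← lint_exp_subst c 1 hc one_pos]
  refine lintegral_congr fun t => ?_
  rw [← ENNReal.ofReal_mul (by positivity)]
  congr 1
  rw [one_mul, one_mul, mul_comm (Real.exp t) c, pow_succ]
  ring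

theorem measurable_sg : Measurable sg := by
  unfold sg
  fun_prop

theorem sg_nonneg (b : ℝ) : 0 ≤ sg b := by
  unfold sg
  positivity

theorem lint_sg : ∫⁻ b : ℝ, ENNReal.ofReal (sg b) = ENNReal.ofReal Real.pi := by
  have h := lint_exp_subst 1 (1 / 2) one_pos (by norm_num) fun u =>
    ENNReal.ofReal (2 * (1 + u ^ 2)⁻¹)
  have h2 : ∫⁻ u in Ioi (0 : ℝ), ENNReal.ofReal (2 * (1 + u ^ 2)⁻¹) = ENNReal.ofReal Real.pi := by
    have hint : IntegrableOn (fun u : ℝ => 2 * (1 + u ^ 2)⁻¹) (Ioi 0) :=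
      (integrable_inv_one_add_sq.const_mul 2).integrableOn
    rw [← ofReal_integral_eq_lintegral_ofReal hint]
    · congr 1
      rw [integral_const_mul, integral_Ioi_inv_one_add_sq, Real.arctan_zero]
      ring
    · filter_upwards with u
      simp only [Pi.zero_apply]
      positivity
  rw [← h2, ← h]
  refine lintegral_congr fun t => ?_
  rw [← ENNReal.ofReal_mul (by positivity)]
  congr 1
  unfold sg
  have h3 : (1 * Real.exp (1 / 2 * t)) ^ 2 = Real.exp t := by
    rw [one_mul, ← Real.exp_nat_mul]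
    congr 1
    push_cast
    ring
  rw [h3, show 1 / 2 * t = t / 2 by ring]
  field_simp

/-- SC-4 -/
theorem stInt : StInt := by
  intro d
  have hm := (volume_preserving_piFinSuccAbove (fun _ : Fin (d + 1) => ℝ) 0).symm
  have hZ : Measurable fun l : Fin (d + 1) → ℝ => Z l := by
    unfold Z ev
    fun_prop
  have hmeas : Measurable fun l : Fin (d + 1) → ℝ => ENNReal.ofReal
      (Real.exp (-Z l) * Z l ^ (d + 1) * ∏ i : Fin d, sg (l i.succ)) := by
    refine ENNReal.measurable_ofReal.comp ?_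
    refine ((Real.measurable_exp.comp hZ.neg).mul (hZ.pow_const _)).mul ?_
    exact Finset.measurable_prod _ fun i _ => measurable_sg.comp (measurable_pi_apply _)
  rw [← hm.lintegral_comp hmeas]
  have he : ∀ p : ℝ × (Fin d → ℝ),
      (ENNReal.ofReal
        (Real.exp (-Z ((MeasurableEquiv.piFinSuccAbove (fun _ : Fin (d + 1) => ℝ) 0).symm p)) *
          Z ((MeasurableEquiv.piFinSuccAbove (fun _ : Fin (d + 1) => ℝ) 0).symm p) ^ (d + 1) *
          ∏ i : Fin d, sg (((MeasurableEquiv.piFinSuccAbove (fun _ : Fin (d + 1) => ℝ) 0).symm p)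
            i.succ))) =
        ENNReal.ofReal (Real.exp (-(Real.exp p.1 * ∏ i : Fin d, (1 + Real.exp (p.2 i)))) *
          (Real.exp p.1 * ∏ i : Fin d, (1 + Real.exp (p.2 i))) ^ (d + 1)) *
          ∏ i : Fin d, ENNReal.ofReal (sg (p.2 i)) := by
    intro p
    rw [Z_eq, ← ENNReal.ofReal_prod_of_nonneg fun i _ => sg_nonneg _, ← ENNReal.ofReal_mul]
    · rfl
    · have : 0 < ∏ i : Fin d, (1 + Real.exp (p.2 i)) :=
        Finset.prod_pos fun i _ => by positivity
      positivity
  simp only [he]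
  have hc : ∀ b : Fin d → ℝ, 0 < ∏ i : Fin d, (1 + Real.exp (b i)) := fun b =>
    Finset.prod_pos fun i _ => by positivity
  have hm1 : Measurable fun p : ℝ × (Fin d → ℝ) =>
      ENNReal.ofReal (Real.exp (-(Real.exp p.1 * ∏ i : Fin d, (1 + Real.exp (p.2 i)))) *
          (Real.exp p.1 * ∏ i : Fin d, (1 + Real.exp (p.2 i))) ^ (d + 1)) *
          ∏ i : Fin d, ENNReal.ofReal (sg (p.2 i)) := by
    refine Measurable.mul ?_ ?_
    · refine ENNReal.measurable_ofReal.comp ?_
      fun_prop
    · exact Finset.measurable_prod _ fun i _ => ENNReal.measurable_ofReal.comp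
        (measurable_sg.comp ((measurable_pi_apply i).comp measurable_snd))
  rw [show (volume : Measure (ℝ × (Fin d → ℝ))) = volume.prod volume from rfl,
    lintegral_prod_symm _ hm1.aemeasurable]
  simp only []
  have h3 : ∀ b : Fin d → ℝ, ∫⁻ t : ℝ,
      ENNReal.ofReal (Real.exp (-(Real.exp t * ∏ i : Fin d, (1 + Real.exp (b i)))) *
          (Real.exp t * ∏ i : Fin d, (1 + Real.exp (b i))) ^ (d + 1)) *
          ∏ i : Fin d, ENNReal.ofReal (sg (b i)) =
      ENNReal.ofReal d.factorial * ∏ i : Fin d, ENNReal.ofReal (sg (b i)) := by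
    intro b
    rw [lintegral_mul_const, lint_inner d _ (hc b)]
    refine ENNReal.measurable_ofReal.comp ?_
    fun_prop
  simp only [h3]
  rw [lintegral_const_mul]
  · have h4 := lint_prod (fun _ : Fin d => fun t => ENNReal.ofReal (sg t)) fun _ =>
      ENNReal.measurable_ofReal.comp measurable_sg
    rw [h4, lint_sg, Finset.prod_const, Finset.card_univ, Fintype.card_fin,
      ← ENNReal.ofReal_pow Real.pi_pos.le, ← ENNReal.ofReal_mul (by positivity)]
  · exact Finset.measurable_prod _ fun i _ => ENNReal.measurable_ofReal.comp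
      (measurable_sg.comp (measurable_pi_apply i))

end Pool.Agent.Helper10.SC
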